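import Mathlib
import Pool.Agent.Helper12.TotalDegree

/-!
For `n ≥ 3` and an infinite field `K`, a polynomial of degree less than `2n`, some power of which
is scalar valued on `M_n(K)`, is a constant. Hence power-central polynomials for `M_n(K)` have
degree at least `2n`.
-/

theorem Pool.Agent.Results.MP_5d2531_al.DegreeAtLeastTwoN.result
    {K : Type*} [Field K] [Infinite K] {X : Type*} {n : ℕ} (hn : 3 ≤ n) {ν : ℕ} (hν : 1 ≤ ν)
    (p : FreeAlgebra K X)
    (hp : p ∈ Submodule.span K {q : FreeAlgebra K X |
      ∃ w : List X, w.length < 2 * n ∧ q = (w.map (FreeAlgebra.ι K)).prod})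
    (hpow : ∀ a : X → Matrix (Fin n) (Fin n) K,
      ∃ c : K, (FreeAlgebra.lift K a p) ^ ν = Matrix.scalar (Fin n) c) :
    ∃ c : K, p = algebraMap K (FreeAlgebra K X) c := by
  classical
  exact Pool.Agent.Helper12.bound_total hn hν p hp hpow
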