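import Mathlib
import Pool.Agent.Helper12.DegreeBounds

/-!
For `n ≥ 3` and an infinite field `K`: if every monomial of `p` has fewer than `n` letters different
from a fixed variable `x₀` (with `x₀` occurring arbitrarily often), and some power of `p` is scalar
valued on `M_n(K)`, then `p` takes a single scalar value on `M_n(K)`.
-/

theorem Pool.Agent.Results.MP_5d2531_al.DegreeOutsideOneVariable.result
    {K : Type*} [Field K] [Infinite K] {X : Type*} [DecidableEq X] (x₀ : X)
    {n : ℕ} (hn : 3 ≤ n) {ν : ℕ} (hν : 1 ≤ ν) (p : FreeAlgebra K X)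
    (hp : p ∈ Submodule.span K {q : FreeAlgebra K X |
      ∃ w : List X, w.length < w.count x₀ + n ∧ q = (w.map (FreeAlgebra.ι K)).prod})
    (hpow : ∀ a : X → Matrix (Fin n) (Fin n) K,
      ∃ c : K, (FreeAlgebra.lift K a p) ^ ν = Matrix.scalar (Fin n) c) :
    ∃ c : K, ∀ a : X → Matrix (Fin n) (Fin n) K,
      FreeAlgebra.lift K a p = Matrix.scalar (Fin n) c :=
  Pool.Agent.Helper12.bound_outer x₀ hn hν p hp hpow
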