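import Mathlib
import Pool.Agent.Helper12.Herm.Main

/-!
Let `K` be an infinite field with an involution `κ` (possibly trivial), `ν` odd, and assume that
`1` is the only `ν`-th root of unity of `K` fixed by `κ`. Let `σ` be a `κ`-semilinear
anti-automorphism of the free algebra `K⟨X⟩` with `σ x = ε x • π x` for all variables `x`, where `π`
is an involution of `X`. If the line `K p` is `σ`-stable and `p ^ ν` is scalar valued on `M_n(K)`,
then `p` is scalar valued on `M_n(K)`.
-/

open MulOpposite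

theorem Pool.Agent.Results.MP_5d2531_al.InvolutionStableLine.result
    {K : Type*} [Field K] [Infinite K] (κ : K →+* K) (hκ : ∀ r, κ (κ r) = r)
    {X : Type*} (π : X → X) (hπ : ∀ x, π (π x) = x)
    (ε : X → K) (hε : ∀ x, ε (π x) * κ (ε x) = 1)
    (σ : FreeAlgebra K X →+* (FreeAlgebra K X)ᵐᵒᵖ)
    (hσ : ∀ r : K, σ (algebraMap K (FreeAlgebra K X) r)
      = op (algebraMap K (FreeAlgebra K X) (κ r)))
    (hσX : ∀ x, σ (FreeAlgebra.ι K x) = op (ε x • FreeAlgebra.ι K (π x)))
    {n ν : ℕ} (hν : Odd ν) (hroot : ∀ ω : K, ω ^ ν = 1 → κ ω = ω → ω = 1)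
    (p : FreeAlgebra K X) (t : K) (hp : σ p = op (t • p))
    (hpow : ∀ a : X → Matrix (Fin n) (Fin n) K,
      ∃ c : K, (FreeAlgebra.lift K a p) ^ ν = Matrix.scalar (Fin n) c) :
    ∀ a : X → Matrix (Fin n) (Fin n) K,
      ∃ c : K, FreeAlgebra.lift K a p = Matrix.scalar (Fin n) c :=
  Pool.Agent.Helper12.Herm.involution_main κ hκ π hπ ε hε σ hσ hσX hν hroot p t hp hpow
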