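import Mathlib
import Pool.Agent.Helper12.Involution

/-!
Let `K` be a field with an involution (possibly trivial) which embeds into the complex numbers
compatibly with complex conjugation, and let `σ` be an involution of the free algebra `K⟨X⟩`
(an anti-automorphism extending the involution of `K`) sending every variable `x` to `± τ x`, where
`τ` is an involution of `X`. If `p` is symmetric or skew for `σ` and some odd power of `p` is scalar
valued on `M_n(K)`, then `p` is scalar valued on `M_n(K)`.
-/

open MulOpposite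

theorem Pool.Agent.Results.MP_5d2531_al.SymmetricUnderInvolution.result
    {K : Type*} [Field K] [StarRing K] [Algebra K ℂ]
    (hK : ∀ r : K, algebraMap K ℂ (star r) = star (algebraMap K ℂ r))
    {X : Type*} (τ : X → X) (hτ : ∀ x, τ (τ x) = x)
    (ε : X → K) (hε : ∀ x, ε x = 1 ∨ ε x = -1) (hετ : ∀ x, ε (τ x) = ε x)
    (σ : FreeAlgebra K X →+* (FreeAlgebra K X)ᵐᵒᵖ)
    (hσ : ∀ r : K, σ (algebraMap K (FreeAlgebra K X) r)
      = op (algebraMap K (FreeAlgebra K X) (star r)))
    (hσX : ∀ x, σ (FreeAlgebra.ι K x) = op (ε x • FreeAlgebra.ι K (τ x)))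
    {n ν : ℕ} (hν : Odd ν) (p : FreeAlgebra K X) (hp : σ p = op p ∨ σ p = op (-p))
    (hpow : ∀ a : X → Matrix (Fin n) (Fin n) K,
      ∃ c : K, (FreeAlgebra.lift K a p) ^ ν = Matrix.scalar (Fin n) c) :
    ∀ a : X → Matrix (Fin n) (Fin n) K,
      ∃ c : K, FreeAlgebra.lift K a p = Matrix.scalar (Fin n) c :=
  Pool.Agent.Helper12.involution_main hK τ hτ ε hε hετ σ hσ hσX hν p hp hpow
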